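import Mathlib

/-!
NU34, P2, the node lemma: an analytic function that is bounded and not small at one point is not small at some of
finitely many equally spaced nodes.
-/

set_option autoImplicit false

namespace NUP2

open Finset Metric Set

/-! ### 1. Zeros -/

/-- an analytic function with many zeros is small -/
theorem zeros_small {c : ℂ} {r R : ℝ} (hr : 0 ≤ r) (hrR : r < R) (s : Finset ℂ) :
    ∀ (G : ℂ → ℂ) (M : ℝ), DiffContOnCl ℂ G (ball c R) → (∀ w ∈ sphere c R, ‖G w‖ ≤ M) →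
    (∀ a ∈ s, a ∈ closedBall c r ∧ G a = 0) →
    ∀ z ∈ closedBall c R, ‖G z‖ ≤ M * ((∏ a ∈ s, ‖z - a‖) / (R - r) ^ s.card) := by
  classical
  have hR : 0 < R := lt_of_le_of_lt hr hrR
  induction s using Finset.induction with
  | empty =>
    intro G M hG hM _ z hz
    simp only [Finset.prod_empty, Finset.card_empty, pow_zero, div_one, mul_one]
    refine Complex.norm_le_of_forall_mem_frontier_norm_le isBounded_ball hG ?_ ?_
    · intro w hw
      rw [frontier_ball c hR.ne'] at hw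
      exact hM w hw
    · rw [closure_ball c hR.ne']
      exact hz
  | insert a s ha ih =>
    intro G M hG hM hs z hz
    obtain ⟨haR, haG⟩ := hs a (Finset.mem_insert_self a s)
    have hab : a ∈ ball c R := by
      rw [mem_ball]
      exact lt_of_le_of_lt (mem_closedBall.1 haR) hrR
    have hnb : ball c R ∈ nhds a := isOpen_ball.mem_nhds hab
    have hnc : closure (ball c R) ∈ nhds a := Filter.mem_of_superset hnb subset_closure
    have hd : DiffContOnCl ℂ (dslope G a) (ball c R) := by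
      refine ⟨(Complex.differentiableOn_dslope hnb).2 hG.1, ?_⟩
      refine (continuousOn_dslope hnc).2 ⟨hG.2, ?_⟩
      exact (hG.1 a hab).differentiableAt hnb
    have hmul : ∀ w, G w = (w - a) * dslope G a w := by
      intro w
      have h := sub_smul_dslope G a w
      rw [haG, sub_zero, smul_eq_mul] at h
      exact h.symm
    have hs' : ∀ b ∈ s, b ∈ closedBall c r ∧ dslope G a b = 0 := by
      intro b hb
      obtain ⟨h1, h2⟩ := hs b (Finset.mem_insert_of_mem hb)
      refine ⟨h1, ?_⟩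
      have hne : b - a ≠ 0 := by
        rw [sub_ne_zero]
        rintro rfl
        exact ha hb
      have h3 := hmul b
      rw [h2] at h3
      rcases mul_eq_zero.1 h3.symm with h4 | h4
      · exact absurd h4 hne
      · exact h4
    have hM' : ∀ w ∈ sphere c R, ‖dslope G a w‖ ≤ M / (R - r) := by
      intro w hw
      rw [le_div_iff₀ (by linarith)]
      have h1 : R - r ≤ ‖w - a‖ := by
        have h2 : dist w c ≤ dist w a + dist a c := dist_triangle _ _ _
        rw [mem_sphere.1 hw] at h2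
        have h3 := mem_closedBall.1 haR
        rw [← dist_eq_norm]
        linarith
      calc ‖dslope G a w‖ * (R - r) ≤ ‖dslope G a w‖ * ‖w - a‖ := mul_le_mul_of_nonneg_left h1 (norm_nonneg _)
        _ = ‖G w‖ := by rw [hmul w, norm_mul, mul_comm]
        _ ≤ M := hM w hw
    have h1 := ih (dslope G a) (M / (R - r)) hd hM' hs' z hz
    rw [hmul z, norm_mul, Finset.prod_insert ha, Finset.card_insert_of_notMem ha]
    calc ‖z - a‖ * ‖dslope G a z‖ ≤ ‖z - a‖ * (M / (R - r) * ((∏ b ∈ s, ‖z - b‖) / (R - r) ^ s.card)) :=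
          mul_le_mul_of_nonneg_left h1 (norm_nonneg _)
      _ = M * (‖z - a‖ * (∏ b ∈ s, ‖z - b‖) / (R - r) ^ (s.card + 1)) := by
          have : R - r ≠ 0 := by linarith
          field_simp
          ring

/-! ### 2. Nodes -/

/-- the node lemma -/
theorem node {c : ℂ} {r R M κ Λ : ℝ} (hr : 0 ≤ r) (hrR : r < R) (s : Finset ℂ) {F : ℂ → ℂ}
    (hF : DiffContOnCl ℂ F (ball c R)) (hM : ∀ w ∈ sphere c R, ‖F w‖ ≤ M)
    (hs : ∀ a ∈ s, a ∈ closedBall c r ∧ ‖F a‖ ≤ κ) (hκ : 0 ≤ κ)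
    (hΛ : ∑ a ∈ s, ∏ b ∈ s.erase a, (R + r) / ‖a - b‖ ≤ Λ) {z : ℂ} (hz : z ∈ closedBall c r) :
    ‖F z‖ ≤ κ * Λ + (M + κ * Λ) * (2 * r / (R - r)) ^ s.card := by
  classical
  have hR : 0 < R := lt_of_le_of_lt hr hrR
  obtain ⟨P, hP⟩ : ∃ P : Polynomial ℂ, P = Lagrange.interpolate s id F := ⟨_, rfl⟩
  -- the polynomial on the large disc
  have hPb : ∀ w ∈ closedBall c R, ‖P.eval w‖ ≤ κ * Λ := by
    intro w hw
    have e1 : P.eval w = ∑ a ∈ s, F a * ∏ b ∈ s.erase a, ((a - b)⁻¹ * (w - b)) := by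
      rw [hP, Lagrange.interpolate_apply, Polynomial.eval_finsetSum]
      refine Finset.sum_congr rfl fun a _ => ?_
      rw [Polynomial.eval_mul, Polynomial.eval_C, Lagrange.basis, Polynomial.eval_prod]
      congr 1
      refine Finset.prod_congr rfl fun b _ => ?_
      simp [Lagrange.basisDivisor]
    rw [e1]
    refine (norm_sum_le _ _).trans ?_
    calc ∑ a ∈ s, ‖F a * ∏ b ∈ s.erase a, ((a - b)⁻¹ * (w - b))‖
        ≤ ∑ a ∈ s, κ * ∏ b ∈ s.erase a, (R + r) / ‖a - b‖ := by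
          refine Finset.sum_le_sum fun a ha => ?_
          rw [norm_mul, norm_prod]
          refine mul_le_mul (hs a ha).2 ?_ (Finset.prod_nonneg fun _ _ => norm_nonneg _) hκ
          refine Finset.prod_le_prod (fun _ _ => norm_nonneg _) fun b hb => ?_
          rw [norm_mul, norm_inv, mul_comm, div_eq_mul_inv]
          refine mul_le_mul_of_nonneg_right ?_ (inv_nonneg.2 (norm_nonneg _))
          have h1 := mem_closedBall.1 (hs b (Finset.mem_of_mem_erase hb)).1
          have h2 := mem_closedBall.1 hw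
          rw [← dist_eq_norm]
          calc dist w b ≤ dist w c + dist c b := dist_triangle _ _ _
            _ ≤ R + r := by
              rw [dist_comm c b]
              linarith
      _ = κ * ∑ a ∈ s, ∏ b ∈ s.erase a, (R + r) / ‖a - b‖ := by rw [Finset.mul_sum]
      _ ≤ κ * Λ := mul_le_mul_of_nonneg_left hΛ hκ
  have hzR : z ∈ closedBall c R := closedBall_subset_closedBall hrR.le hz
  have hG : DiffContOnCl ℂ (fun w => F w - P.eval w) (ball c R) :=
    hF.sub (Polynomial.differentiable P).diffContOnCl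
  have h1 := zeros_small hr hrR s (fun w => F w - P.eval w) (M + κ * Λ) hG
    (fun w hw => (norm_sub_le _ _).trans (add_le_add (hM w hw) (hPb w (sphere_subset_closedBall hw))))
    (fun a ha => ⟨(hs a ha).1, by
      show F a - P.eval a = 0
      rw [hP]
      have h2 := Lagrange.eval_interpolate_at_node (v := (id : ℂ → ℂ)) F (Function.injective_id.injOn (s := (s : Set ℂ))) ha
      simp only [id_eq] at h2
      rw [h2, sub_self]⟩) z hzR
  have hM0 : 0 ≤ M + κ * Λ := by
    have h3 : (c + (R : ℂ)) ∈ sphere c R := by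
      rw [mem_sphere, dist_eq_norm, add_sub_cancel_left, Complex.norm_real, Real.norm_of_nonneg hR.le]
    have h4 := hM _ h3
    have h5 := hPb _ (sphere_subset_closedBall h3)
    linarith [norm_nonneg (F (c + R)), norm_nonneg (P.eval (c + (R : ℂ)))]
  have h2 : (∏ a ∈ s, ‖z - a‖) / (R - r) ^ s.card ≤ (2 * r / (R - r)) ^ s.card := by
    rw [div_pow]
    refine div_le_div_of_nonneg_right ?_ (pow_nonneg (by linarith) _)
    rw [← Finset.prod_const]
    refine Finset.prod_le_prod (fun _ _ => norm_nonneg _) fun a ha => ?_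
    have h3 := mem_closedBall.1 (hs a ha).1
    have h4 := mem_closedBall.1 hz
    rw [← dist_eq_norm]
    calc dist z a ≤ dist z c + dist c a := dist_triangle _ _ _
      _ ≤ 2 * r := by
        rw [dist_comm c a]
        linarith
  calc ‖F z‖ = ‖P.eval z + (F z - P.eval z)‖ := by rw [add_sub_cancel]
    _ ≤ ‖P.eval z‖ + ‖F z - P.eval z‖ := norm_add_le _ _
    _ ≤ κ * Λ + (M + κ * Λ) * ((∏ a ∈ s, ‖z - a‖) / (R - r) ^ s.card) := add_le_add (hPb z hzR) h1
    _ ≤ _ := by
      gcongr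

/-! ### 3. Equally spaced nodes -/

/-- the nodes -/
noncomputable def nd (x₀ h : ℝ) (n : ℕ) : Finset ℂ := (range (n + 1)).image fun j : ℕ => ((x₀ + j * h : ℝ) : ℂ)

lemma nd_inj {x₀ h : ℝ} (hh : 0 < h) : Function.Injective fun j : ℕ => ((x₀ + j * h : ℝ) : ℂ) := by
  intro i j hij
  have h1 : x₀ + i * h = x₀ + j * h := Complex.ofReal_injective hij
  have h2 : (i : ℝ) = j := by
    have h3 : (i : ℝ) * h = j * h := by linarith
    exact mul_right_cancel₀ hh.ne' h3
  exact_mod_cast h2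

lemma card_nd {x₀ h : ℝ} (hh : 0 < h) (n : ℕ) : (nd x₀ h n).card = n + 1 := by
  unfold nd
  rw [Finset.card_image_of_injective _ (nd_inj hh), Finset.card_range]

lemma prod_abs (n i : ℕ) (hi : i ≤ n) :
    ∏ j ∈ (range (n + 1)).erase i, |(i : ℝ) - j| = (i.factorial : ℝ) * (n - i).factorial := by
  have e1 : ∏ j ∈ (range (n + 1)).erase i, |(i : ℝ) - j| =
      ∏ j ∈ range (n + 1), (if j = i then 1 else |(i : ℝ) - j|) := by
    rw [← Finset.prod_erase (range (n + 1)) (a := i) (by simp)]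
    refine Finset.prod_congr rfl fun j hj => ?_
    rw [if_neg (Finset.ne_of_mem_erase hj)]
  have e2 : n + 1 = (i + 1) + (n - i) := by omega
  rw [e1, e2, Finset.prod_range_add, Finset.prod_range_succ, if_pos rfl, mul_one]
  congr 1
  · rw [← Finset.prod_range_reflect, ← Finset.prod_range_add_one_eq_factorial]
    push_cast
    refine Finset.prod_congr rfl fun j hj => ?_
    have hj' : j < i := Finset.mem_range.1 hj
    rw [if_neg (by omega)]
    have h1 : ((i - 1 - j : ℕ) : ℝ) = i - 1 - j := by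
      rw [Nat.cast_sub (by omega), Nat.cast_sub (by omega)]
      simp
    rw [h1, show (i : ℝ) - (i - 1 - j) = j + 1 by ring, abs_of_pos (by positivity)]
  · rw [← Finset.prod_range_add_one_eq_factorial]
    push_cast
    refine Finset.prod_congr rfl fun j _ => ?_
    rw [if_neg (by omega)]
    rw [show (i : ℝ) - (i + 1 + j) = -(j + 1) by ring, abs_neg, abs_of_pos (by positivity)]

lemma sum_nd {x₀ h ρ : ℝ} (hh : 0 < h) (n : ℕ) :
    ∑ a ∈ nd x₀ h n, ∏ b ∈ (nd x₀ h n).erase a, ρ / ‖a - b‖ = (2 * ρ / h) ^ n / n.factorial := by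
  classical
  have e1 : ∑ a ∈ nd x₀ h n, ∏ b ∈ (nd x₀ h n).erase a, ρ / ‖a - b‖ =
      ∑ i ∈ range (n + 1), (ρ / h) ^ n / ((i.factorial : ℝ) * (n - i).factorial) := by
    unfold nd
    rw [Finset.sum_image fun i _ j _ hij => nd_inj hh hij]
    refine Finset.sum_congr rfl fun i hi => ?_
    have hi' : i ≤ n := Nat.lt_succ_iff.1 (Finset.mem_range.1 hi)
    rw [← Finset.image_erase (nd_inj hh), Finset.prod_image fun i _ j _ hij => nd_inj hh hij]
    have e2 : ∀ j ∈ (range (n + 1)).erase i, ρ / ‖((x₀ + i * h : ℝ) : ℂ) - ((x₀ + j * h : ℝ) : ℂ)‖ =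
        (ρ / h) / |(i : ℝ) - j| := by
      intro j _
      rw [← Complex.ofReal_sub, Complex.norm_real, Real.norm_eq_abs,
        show x₀ + i * h - (x₀ + j * h) = ((i : ℝ) - j) * h by ring, abs_mul, abs_of_pos hh, div_div, mul_comm]
    rw [Finset.prod_congr rfl e2, Finset.prod_div_distrib, Finset.prod_const, prod_abs n i hi',
      Finset.card_erase_of_mem hi, Finset.card_range, Nat.add_sub_cancel]
  rw [e1]
  have e3 : ∀ i ∈ range (n + 1), (ρ / h) ^ n / ((i.factorial : ℝ) * (n - i).factorial) =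
      (ρ / h) ^ n / n.factorial * (n.choose i) := by
    intro i hi
    have hi' : i ≤ n := Nat.lt_succ_iff.1 (Finset.mem_range.1 hi)
    have h1 : (n.choose i : ℝ) * (i.factorial * (n - i).factorial) = n.factorial := by
      have h2 := Nat.choose_mul_factorial_mul_factorial hi'
      rw [mul_assoc] at h2
      exact_mod_cast h2
    have h3 : (i.factorial : ℝ) ≠ 0 := by positivity
    have h4 : ((n - i).factorial : ℝ) ≠ 0 := by positivity
    have h5 : (n.choose i : ℝ) ≠ 0 := by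
      have := Nat.choose_pos hi'
      positivity
    rw [← h1]
    field_simp
  rw [Finset.sum_congr rfl e3, ← Finset.mul_sum]
  have e4 : ∑ i ∈ range (n + 1), (n.choose i : ℝ) = 2 ^ n := by
    exact_mod_cast Nat.sum_range_choose n
  rw [e4, mul_comm (2 : ℝ) ρ, mul_div_right_comm, mul_pow]
  ring

/-- the node lemma for equally spaced nodes -/
theorem node_eq {c : ℂ} {r R M κ h : ℝ} (hr : 0 ≤ r) (hrR : r < R) (hh : 0 < h) {n : ℕ} {x₀ : ℝ} {F : ℂ → ℂ}
    (hF : DiffContOnCl ℂ F (ball c R)) (hM : ∀ w ∈ sphere c R, ‖F w‖ ≤ M)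
    (hs : ∀ j : ℕ, j ≤ n → ((x₀ + j * h : ℝ) : ℂ) ∈ closedBall c r ∧ ‖F ((x₀ + j * h : ℝ) : ℂ)‖ ≤ κ) (hκ : 0 ≤ κ)
    {z : ℂ} (hz : z ∈ closedBall c r) :
    ‖F z‖ ≤ κ * ((2 * (R + r) / h) ^ n / n.factorial) +
      (M + κ * ((2 * (R + r) / h) ^ n / n.factorial)) * (2 * r / (R - r)) ^ (n + 1) := by
  have h1 := node (κ := κ) hr hrR (nd x₀ h n) hF hM (fun a ha => by
    unfold nd at ha
    obtain ⟨j, hj, rfl⟩ := Finset.mem_image.1 ha
    exact hs j (Nat.lt_succ_iff.1 (Finset.mem_range.1 hj))) hκ (sum_nd hh n).le hz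
  rw [card_nd hh] at h1
  exact h1

/-! ### 4. The asymptotic form -/

lemma pow_div_factorial_le {x : ℝ} (hx : 0 ≤ x) {n : ℕ} (hn : 0 < n) : x ^ n / n.factorial ≤ (Real.exp 1 * x / n) ^ n := by
  have h1 : ((n : ℝ) ^ n) / n.factorial ≤ Real.exp n := by
    have h := Real.sum_le_exp_of_nonneg (x := (n : ℝ)) (by positivity) (n + 1)
    rw [Finset.sum_range_succ] at h
    have h2 : 0 ≤ ∑ i ∈ range n, (n : ℝ) ^ i / i.factorial := Finset.sum_nonneg fun i _ => by positivity
    linarith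
  have hn' : (0 : ℝ) < n := by exact_mod_cast hn
  have h3 : (0 : ℝ) < n.factorial := by positivity
  rw [div_pow, mul_pow, ← Real.exp_nat_mul, mul_one]
  rw [div_le_div_iff₀ h3 (by positivity)]
  rw [div_le_iff₀ h3] at h1
  calc x ^ n * (n : ℝ) ^ n ≤ x ^ n * (Real.exp n * n.factorial) := mul_le_mul_of_nonneg_left h1 (by positivity)
    _ = _ := by ring

lemma exists_delta {ρ γ ε : ℝ} (hρ : 0 < ρ) (hγ : 0 < γ) (hε : 0 < ε) {a : ℝ} (ha : 0 < a) :
    ∃ δ : ℝ, 0 < δ ∧ δ ≤ a ∧ δ + 2 * δ * Real.log (Real.exp 1 * ρ / (δ * γ)) ≤ ε := by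
  have hc : Continuous fun x : ℝ => x + 2 * x * (1 + Real.log ρ - Real.log γ) - 2 * (x * Real.log x) :=
    (continuous_id.add ((continuous_const.mul continuous_id).mul continuous_const)).sub
      (continuous_const.mul Real.continuous_mul_log)
  have h0 : Filter.Tendsto (fun x : ℝ => x + 2 * x * (1 + Real.log ρ - Real.log γ) - 2 * (x * Real.log x))
      (nhds 0) (nhds 0) := by
    have h := hc.tendsto 0
    simpa using h
  have h1 : ∀ᶠ x : ℝ in nhdsWithin 0 (Ioi 0),
      x + 2 * x * (1 + Real.log ρ - Real.log γ) - 2 * (x * Real.log x) ≤ ε :=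
    (h0.mono_left nhdsWithin_le_nhds).eventually_le_const hε
  have h2 : ∀ᶠ x : ℝ in nhdsWithin 0 (Ioi 0), x ≤ a :=
    (Filter.Tendsto.mono_left Filter.tendsto_id nhdsWithin_le_nhds).eventually_le_const ha
  obtain ⟨δ, h3, h4, h5⟩ := (h1.and (h2.and self_mem_nhdsWithin)).exists
  have h5' : 0 < δ := h5
  refine ⟨δ, h5', h4, ?_⟩
  have e1 : Real.log (Real.exp 1 * ρ / (δ * γ)) = 1 + Real.log ρ - Real.log γ - Real.log δ := by
    rw [Real.log_div (by positivity) (by positivity), Real.log_mul (by positivity) (by positivity),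
      Real.log_mul (by positivity) (by positivity), Real.log_exp]
    ring
  rw [e1]
  have e2 : δ + 2 * δ * (1 + Real.log ρ - Real.log γ - Real.log δ) =
      δ + 2 * δ * (1 + Real.log ρ - Real.log γ) - 2 * (δ * Real.log δ) := by ring
  rw [e2]
  exact h3

/-- at some node the function is not small -/
theorem exists_node {r R γ η ε : ℝ} (hr : 0 < r) (hR : 9 * r ≤ R) (hγ : 0 < γ) (hη : 0 < η) (hε : 0 < ε) :
    ∃ δ : ℝ, 0 < δ ∧ ∃ T₀ : ℝ, 0 < T₀ ∧ ∀ T : ℝ, T₀ ≤ T → ∀ (F : ℂ → ℂ) (c z : ℂ) (x₀ : ℝ),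
      DiffContOnCl ℂ F (ball c R) → (∀ w ∈ sphere c R, ‖F w‖ ≤ Real.exp (δ * T)) → z ∈ closedBall c r →
      Real.exp (-(δ * T)) ≤ ‖F z‖ → (∀ x : ℝ, x₀ ≤ x → x ≤ x₀ + η → (x : ℂ) ∈ closedBall c r) →
      ∃ j : ℕ, j * (γ / T) ≤ η ∧ Real.exp (-(ε * T)) ≤ ‖F ((x₀ + j * (γ / T) : ℝ) : ℂ)‖ := by
  obtain ⟨ρ, hρ⟩ : ∃ ρ, ρ = R + r := ⟨_, rfl⟩
  have hρ0 : 0 < ρ := by linarith
  obtain ⟨δ, hδ, hδ1, hδ2⟩ := exists_delta hρ0 hγ (half_pos hε) (a := min (η / (4 * γ)) (ρ / γ)) (by positivity)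
  obtain ⟨B, hB⟩ : ∃ B, B = Real.exp 1 * ρ / (δ * γ) := ⟨_, rfl⟩
  rw [← hB] at hδ2
  have hB0 : 0 < B := by rw [hB]; positivity
  have hB1 : 1 ≤ B := by
    rw [hB, le_div_iff₀ (by positivity), one_mul]
    have h1 : δ * γ ≤ ρ := by
      rw [← le_div_iff₀ hγ]
      exact hδ1.trans (min_le_right _ _)
    have h2 : 1 ≤ Real.exp 1 := by
      have := Real.add_one_le_exp (1 : ℝ)
      linarith
    nlinarith
  have hlB : 0 ≤ Real.log B := Real.log_nonneg hB1
  obtain ⟨A, hA⟩ : ∃ A, A = Real.log B + Real.log (8 / 3) + 1 := ⟨_, rfl⟩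
  have hl8 : 0 ≤ Real.log (8 / 3) := Real.log_nonneg (by norm_num)
  refine ⟨δ, hδ, max (2 * γ / η) (2 * A / ε), by positivity, ?_⟩
  intro T hT F c z x₀ hF hM hz hFz hx
  have hT1 : 2 * γ / η ≤ T := (le_max_left _ _).trans hT
  have hT2 : 2 * A / ε ≤ T := (le_max_right _ _).trans hT
  have hT0 : 0 < T := lt_of_lt_of_le (by positivity) hT1
  by_contra hcon
  push Not at hcon
  obtain ⟨n, hn⟩ : ∃ n, n = ⌈2 * δ * T⌉₊ := ⟨_, rfl⟩
  have hn1 : 2 * δ * T ≤ n := by
    rw [hn]
    exact Nat.le_ceil _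
  have hn2 : (n : ℝ) ≤ 2 * δ * T + 1 := by
    rw [hn]
    exact (Nat.ceil_lt_add_one (by positivity)).le
  have hnpos : 0 < n := by
    have : (0 : ℝ) < n := lt_of_lt_of_le (by positivity) hn1
    exact_mod_cast this
  have hh : 0 < γ / T := by positivity
  have hnh : (n : ℝ) * (γ / T) ≤ η := by
    have h1 : δ * γ ≤ η / 4 := by
      have := hδ1.trans (min_le_left _ _)
      rw [le_div_iff₀ (by positivity)] at this
      linarith
    have h2 : γ / T ≤ η / 2 := by
      rw [div_le_iff₀ hT0]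
      rw [div_le_iff₀ hη] at hT1
      linarith
    calc (n : ℝ) * (γ / T) ≤ (2 * δ * T + 1) * (γ / T) := mul_le_mul_of_nonneg_right hn2 hh.le
      _ = 2 * (δ * γ) + γ / T := by field_simp
      _ ≤ η := by linarith
  have hjh : ∀ j : ℕ, j ≤ n → (j : ℝ) * (γ / T) ≤ η := fun j hj =>
    (mul_le_mul_of_nonneg_right (by exact_mod_cast hj) hh.le).trans hnh
  obtain ⟨κ, hκ⟩ : ∃ κ, κ = Real.exp (-(ε * T)) := ⟨_, rfl⟩
  have hκ0 : 0 < κ := by rw [hκ]; exact Real.exp_pos _
  have h1 := node_eq (r := r) (R := R) (M := Real.exp (δ * T)) (κ := κ) (h := γ / T) (n := n) (x₀ := x₀) hr.le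
    (by linarith) hh hF hM (fun j hj => ⟨hx _ (by
      have : 0 ≤ (j : ℝ) * (γ / T) := by positivity
      linarith) (by linarith [hjh j hj]), by
      rw [hκ]
      exact (hcon j (hjh j hj)).le⟩) hκ0.le hz
  rw [← hρ] at h1
  obtain ⟨Λ, hΛ⟩ : ∃ Λ, Λ = (2 * ρ / (γ / T)) ^ n / n.factorial := ⟨_, rfl⟩
  rw [← hΛ] at h1
  have hΛ0 : 0 ≤ Λ := by rw [hΛ]; positivity
  have hΛ1 : Λ ≤ Real.exp ((2 * δ * T + 1) * Real.log B) := by
    rw [hΛ]
    refine (pow_div_factorial_le (by positivity) hnpos).trans ?_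
    have h2 : Real.exp 1 * (2 * ρ / (γ / T)) / n ≤ B := by
      have hn0 : (0 : ℝ) < n := by exact_mod_cast hnpos
      rw [hB, div_le_div_iff₀ hn0 (by positivity)]
      have e1 : Real.exp 1 * (2 * ρ / (γ / T)) * (δ * γ) = Real.exp 1 * ρ * (2 * δ * T) := by
        field_simp
      rw [e1]
      exact mul_le_mul_of_nonneg_left hn1 (by positivity)
    calc (Real.exp 1 * (2 * ρ / (γ / T)) / n) ^ n ≤ B ^ n := pow_le_pow_left₀ (by positivity) h2 n
      _ = Real.exp (n * Real.log B) := by rw [Real.exp_nat_mul, Real.exp_log hB0]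
      _ ≤ _ := Real.exp_le_exp.2 (mul_le_mul_of_nonneg_right hn2 hlB)
  have hq : (2 * r / (R - r)) ^ (n + 1) ≤ (1 / 4) * Real.exp (-(2 * δ * T)) := by
    have hq1 : 2 * r / (R - r) ≤ 1 / 4 := by
      rw [div_le_div_iff₀ (by linarith) (by norm_num)]
      linarith
    have hq0 : 0 ≤ 2 * r / (R - r) := div_nonneg (by linarith) (by linarith)
    have he : (1 : ℝ) / 4 ≤ Real.exp (-1) := by
      rw [Real.exp_neg, one_div, inv_le_inv₀ (by norm_num) (Real.exp_pos _)]
      have := Real.exp_one_lt_d9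
      linarith
    calc (2 * r / (R - r)) ^ (n + 1) ≤ (1 / 4) ^ (n + 1) := pow_le_pow_left₀ hq0 hq1 _
      _ = (1 / 4) * (1 / 4) ^ n := by rw [pow_succ, mul_comm]
      _ ≤ (1 / 4) * (Real.exp (-1)) ^ n := by
          refine mul_le_mul_of_nonneg_left (pow_le_pow_left₀ (by norm_num) he n) (by norm_num)
      _ = (1 / 4) * Real.exp (-n) := by
          rw [← Real.exp_nat_mul]
          congr 2
          ring
      _ ≤ _ := by
          refine mul_le_mul_of_nonneg_left (Real.exp_le_exp.2 ?_) (by norm_num)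
          linarith
  have hq' : (2 * r / (R - r)) ^ (n + 1) ≤ 1 := by
    refine hq.trans ?_
    have : Real.exp (-(2 * δ * T)) ≤ 1 := by
      rw [Real.exp_le_one_iff]
      have : 0 < 2 * δ * T := by positivity
      linarith
    linarith
  have hq0 : 0 ≤ (2 * r / (R - r)) ^ (n + 1) := pow_nonneg (div_nonneg (by linarith) (by linarith)) _
  have h3 : ‖F z‖ ≤ 2 * (κ * Λ) + (1 / 4) * Real.exp (-(δ * T)) := by
    refine h1.trans ?_
    have h4 : κ * Λ * (2 * r / (R - r)) ^ (n + 1) ≤ κ * Λ := mul_le_of_le_one_right (by positivity) hq'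
    have h5 : Real.exp (δ * T) * (2 * r / (R - r)) ^ (n + 1) ≤ (1 / 4) * Real.exp (-(δ * T)) := by
      calc Real.exp (δ * T) * (2 * r / (R - r)) ^ (n + 1) ≤ Real.exp (δ * T) * ((1 / 4) * Real.exp (-(2 * δ * T))) :=
            mul_le_mul_of_nonneg_left hq (Real.exp_pos _).le
        _ = (1 / 4) * (Real.exp (δ * T) * Real.exp (-(2 * δ * T))) := by ring
        _ = _ := by
            rw [← Real.exp_add]
            congr 2
            ring
    nlinarith
  have h6 : κ * Λ < (3 / 8) * Real.exp (-(δ * T)) := by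
    calc κ * Λ ≤ κ * Real.exp ((2 * δ * T + 1) * Real.log B) := mul_le_mul_of_nonneg_left hΛ1 hκ0.le
      _ = Real.exp (-(ε * T) + (2 * δ * T + 1) * Real.log B) := by rw [hκ, ← Real.exp_add]
      _ < Real.exp (-(δ * T) - Real.log (8 / 3)) := by
          refine Real.exp_lt_exp.2 ?_
          have h7 : T * (δ + 2 * δ * Real.log B) ≤ T * (ε / 2) := mul_le_mul_of_nonneg_left hδ2 hT0.le
          have h8 : 2 * A ≤ T * ε := by
            rw [div_le_iff₀ hε] at hT2
            exact hT2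
          nlinarith
      _ = (3 / 8) * Real.exp (-(δ * T)) := by
          rw [Real.exp_sub, Real.exp_log (by norm_num)]
          ring
  have h9 := Real.exp_pos (-(δ * T))
  linarith

end NUP2
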