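import Pool.Agent.NUP2.Node

/-!
NU34, P2: a convex function that is close to a quadratic polynomial on a net is close to it everywhere.
-/

set_option autoImplicit false

namespace NUP2

open Set Metric

/-- a convex function close to a quadratic polynomial on a net -/
theorem conv_net {a b η e A B C : ℝ} {G : ℝ → ℝ} (hG : ConvexOn ℝ (Icc a b) G) (hA : 0 ≤ A) (hη : 0 < η)
    (hnet : ∀ x, a ≤ x → x + η ≤ b → ∃ y ∈ Icc x (x + η), |G y - (A * y ^ 2 + B * y + C)| ≤ e) :
    ∀ x ∈ Icc (a + 3 * η) (b - η), |G x - (A * x ^ 2 + B * x + C)| ≤ 3 * e + 3 * A * η ^ 2 := by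
  intro x hx
  obtain ⟨hx1, hx2⟩ := hx
  obtain ⟨y0, hy0, e0⟩ := hnet (x - 3 * η) (by linarith) (by linarith)
  obtain ⟨y1, hy1, e1⟩ := hnet (x - η) (by linarith) (by linarith)
  obtain ⟨y2, hy2, e2⟩ := hnet x (by linarith) (by linarith)
  have he : 0 ≤ e := (abs_nonneg _).trans e0
  obtain ⟨l0, u0⟩ := abs_le.1 e0
  obtain ⟨l1, u1⟩ := abs_le.1 e1
  obtain ⟨l2, u2⟩ := abs_le.1 e2
  have h0 : x - 3 * η ≤ y0 ∧ y0 ≤ x - 2 * η := ⟨hy0.1, by linarith [hy0.2]⟩
  have h1 : x - η ≤ y1 ∧ y1 ≤ x := ⟨hy1.1, by linarith [hy1.2]⟩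
  have h2 : x ≤ y2 ∧ y2 ≤ x + η := ⟨hy2.1, hy2.2⟩
  rw [abs_le]
  constructor
  · -- lower bound: y1 between y0 and x
    rcases eq_or_lt_of_le h1.2 with h | h
    · rw [h] at l1
      nlinarith [mul_nonneg hA (sq_nonneg η)]
    · have hd : 0 < x - y0 := by linarith
      have hconv := hG.2 (show y0 ∈ Icc a b from ⟨by linarith, by linarith⟩)
        (show x ∈ Icc a b from ⟨by linarith, by linarith⟩)
        (show 0 ≤ (x - y1) / (x - y0) from div_nonneg (by linarith) hd.le)
        (show 0 ≤ (y1 - y0) / (x - y0) from div_nonneg (by linarith) hd.le) (by field_simp; ring)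
      simp only [smul_eq_mul] at hconv
      have e3 : (x - y1) / (x - y0) * y0 + (y1 - y0) / (x - y0) * x = y1 := by
        field_simp
        ring
      rw [e3, div_mul_eq_mul_div, div_mul_eq_mul_div, ← add_div, le_div_iff₀ hd] at hconv
      -- (x - y0) G y1 ≤ (x - y1) G y0 + (y1 - y0) G x
      have hp : 0 < y1 - y0 := by linarith
      have hq : η ≤ y1 - y0 := by linarith
      have hr : x - y1 ≤ η := by linarith
      have key : (y1 - y0) * (G x - (A * x ^ 2 + B * x + C)) ≥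
          -((x - y0) * e + (x - y1) * e) - A * (x - y1) * (x - y0) * (y1 - y0) := by
        have i1 : (x - y0) * (A * y1 ^ 2 + B * y1 + C - e) ≤ (x - y0) * G y1 :=
          mul_le_mul_of_nonneg_left (by linarith) hd.le
        have i2 : (x - y1) * G y0 ≤ (x - y1) * (A * y0 ^ 2 + B * y0 + C + e) :=
          mul_le_mul_of_nonneg_left (by linarith) (by linarith)
        have i3 : (x - y0) * (A * y1 ^ 2 + B * y1 + C) - (x - y1) * (A * y0 ^ 2 + B * y0 + C) -
            (y1 - y0) * (A * x ^ 2 + B * x + C) = - A * (x - y1) * (x - y0) * (y1 - y0) := by ring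
        linarith
      have j1 : (x - y0) * e + (x - y1) * e ≤ 3 * e * (y1 - y0) := by
        have k0 : (x - y0) + (x - y1) ≤ 3 * (y1 - y0) := by linarith
        calc (x - y0) * e + (x - y1) * e = ((x - y0) + (x - y1)) * e := by ring
          _ ≤ (3 * (y1 - y0)) * e := mul_le_mul_of_nonneg_right k0 he
          _ = _ := by ring
      have j2 : A * (x - y1) * (x - y0) * (y1 - y0) ≤ 3 * A * η ^ 2 * (y1 - y0) := by
        refine mul_le_mul_of_nonneg_right ?_ hp.le
        have k1 : (x - y1) * (x - y0) ≤ η * (3 * η) :=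
          mul_le_mul hr (by linarith) hd.le hη.le
        calc A * (x - y1) * (x - y0) = A * ((x - y1) * (x - y0)) := by ring
          _ ≤ A * (η * (3 * η)) := mul_le_mul_of_nonneg_left k1 hA
          _ = _ := by ring
      have j3 : -(3 * e + 3 * A * η ^ 2) * (y1 - y0) ≤ (G x - (A * x ^ 2 + B * x + C)) * (y1 - y0) := by
        linarith
      exact le_of_mul_le_mul_right j3 hp
  · -- upper bound: x between y1 and y2
    rcases eq_or_lt_of_le (h1.2.trans h2.1) with h | h
    · have hx' : x = y1 := le_antisymm (by linarith) (by linarith)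
      rw [← hx'] at u1
      nlinarith [mul_nonneg hA (sq_nonneg η)]
    · have hd : 0 < y2 - y1 := by linarith
      have hconv := hG.2 (show y1 ∈ Icc a b from ⟨by linarith, by linarith⟩)
        (show y2 ∈ Icc a b from ⟨by linarith, by linarith⟩)
        (show 0 ≤ (y2 - x) / (y2 - y1) from div_nonneg (by linarith) hd.le)
        (show 0 ≤ (x - y1) / (y2 - y1) from div_nonneg (by linarith) hd.le) (by field_simp; ring)
      simp only [smul_eq_mul] at hconv
      have e3 : (y2 - x) / (y2 - y1) * y1 + (x - y1) / (y2 - y1) * y2 = x := by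
        field_simp
        ring
      rw [e3, div_mul_eq_mul_div, div_mul_eq_mul_div, ← add_div, le_div_iff₀ hd] at hconv
      have i1 : (y2 - x) * G y1 ≤ (y2 - x) * (A * y1 ^ 2 + B * y1 + C + e) :=
        mul_le_mul_of_nonneg_left (by linarith) (by linarith)
      have i2 : (x - y1) * G y2 ≤ (x - y1) * (A * y2 ^ 2 + B * y2 + C + e) :=
        mul_le_mul_of_nonneg_left (by linarith) (by linarith)
      have i3 : (y2 - x) * (A * y1 ^ 2 + B * y1 + C) + (x - y1) * (A * y2 ^ 2 + B * y2 + C) -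
          (y2 - y1) * (A * x ^ 2 + B * x + C) = A * (x - y1) * (y2 - x) * (y2 - y1) := by ring
      have j2 : A * (x - y1) * (y2 - x) * (y2 - y1) ≤ A * η ^ 2 * (y2 - y1) := by
        refine mul_le_mul_of_nonneg_right ?_ hd.le
        have k1 : (x - y1) * (y2 - x) ≤ η * η :=
          mul_le_mul (by linarith) (by linarith) (by linarith) hη.le
        calc A * (x - y1) * (y2 - x) = A * ((x - y1) * (y2 - x)) := by ring
          _ ≤ A * (η * η) := mul_le_mul_of_nonneg_left k1 hA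
          _ = _ := by ring
      have j3 : (G x - (A * x ^ 2 + B * x + C)) * (y2 - y1) ≤ (e + A * η ^ 2) * (y2 - y1) := by linarith
      have j4 := le_of_mul_le_mul_right j3 hd
      have j5 := mul_nonneg hA (sq_nonneg η)
      linarith

/-- the quadratic law from analyticity in the outer fugacity: F m is analytic, at most e^{C0 + o(T)}, at one point at
least e^{C0 - o(T)}, and at the lattice points b = s - κ J / T it is e^{G(2 b - s) + (a + 2 J) b + O(ε₀ T)} with G convex -/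
theorem quad_law {κ s b₀ r R ε₀ : ℝ} {c z : ℂ} (hκ : 0 < κ) (hb : b₀ < s) (hr : 0 < r) (hR : 9 * r ≤ R)
    (hI : ∀ x : ℝ, b₀ ≤ x → x ≤ s → (x : ℂ) ∈ closedBall c r) (hz : z ∈ closedBall c r)
    {T C0 a : ℕ → ℝ} {F : ℕ → ℂ → ℂ} {G : ℕ → ℝ → ℝ} (hT : Filter.Tendsto T Filter.atTop Filter.atTop)
    (hF : ∀ᶠ m in Filter.atTop, DiffContOnCl ℂ (F m) (ball c R))
    (hup : ∀ ε : ℝ, 0 < ε → ∀ᶠ m in Filter.atTop, ∀ w ∈ closedBall c R, ‖F m w‖ ≤ Real.exp (C0 m + ε * T m))
    (hlow : ∀ ε : ℝ, 0 < ε → ∀ᶠ m in Filter.atTop, Real.exp (C0 m - ε * T m) ≤ ‖F m z‖)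
    (hid : ∀ᶠ m in Filter.atTop, ∀ J : ℕ, b₀ ≤ s - κ * J / T m →
      |Real.log ‖F m ((s - κ * J / T m : ℝ) : ℂ)‖ -
        (G m (2 * (s - κ * J / T m) - s) + (a m + 2 * J) * (s - κ * J / T m))| ≤ ε₀ * T m)
    (hconv : ∀ᶠ m in Filter.atTop, ConvexOn ℝ (Icc (2 * b₀ - s) s) (G m)) :
    ∀ ε : ℝ, 0 < ε → ∀ᶠ m in Filter.atTop, ∀ β ∈ Icc (2 * b₀ - s + ε) (s - ε),
      |G m β - (C0 m - a m * (β + s) / 2 - T m / (2 * κ) * (s ^ 2 - β ^ 2))| ≤ (3 * ε₀ + ε) * T m := by
  intro ε hε
  obtain ⟨η, hη⟩ : ∃ η, η = min (ε / 6) (min ((s - b₀) / 2) (min 1 (κ * ε / 12))) := ⟨_, rfl⟩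
  have hη0 : 0 < η := by
    rw [hη]
    have : 0 < s - b₀ := by linarith
    positivity
  have hη1 : η ≤ ε / 6 := by rw [hη]; exact min_le_left _ _
  have hη2 : η ≤ 1 := by
    rw [hη]
    exact (min_le_right _ _).trans ((min_le_right _ _).trans (min_le_left _ _))
  have hη3 : η ≤ κ * ε / 12 := by
    rw [hη]
    exact (min_le_right _ _).trans ((min_le_right _ _).trans (min_le_right _ _))
  obtain ⟨δ, hδ, T₀, hT₀, hnode⟩ := exists_node (η := η / 2) hr hR hκ (by linarith) (show 0 < ε / 12 by linarith)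
  have hTbig : ∀ᶠ m in Filter.atTop, max T₀ (2 * κ / η) ≤ T m := hT.eventually_ge_atTop _
  filter_upwards [hF, hup (min δ (ε / 12)) (by positivity), hlow δ hδ, hid, hconv, hTbig] with m f1 f2 f3 f4 f5 f6
  have hTm : T₀ ≤ T m := (le_max_left _ _).trans f6
  have hTm2 : 2 * κ / η ≤ T m := (le_max_right _ _).trans f6
  have hT0 : 0 < T m := lt_of_lt_of_le hT₀ hTm
  have hsp : κ / T m ≤ η / 2 := by
    rw [div_le_iff₀ hT0]
    rw [div_le_iff₀ hη0] at hTm2
    linarith
  obtain ⟨F', hF'⟩ : ∃ F' : ℂ → ℂ, F' = fun w => ((Real.exp (-C0 m) : ℝ) : ℂ) * F m w := ⟨_, rfl⟩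
  have hnF : ∀ w, ‖F' w‖ = Real.exp (-C0 m) * ‖F m w‖ := by
    intro w
    rw [hF', norm_mul, Complex.norm_real, Real.norm_of_nonneg (Real.exp_pos _).le]
  -- the net
  have hnet : ∀ x, b₀ ≤ x → x + η ≤ s → ∃ b ∈ Icc x (x + η),
      |G m (2 * b - s) - (C0 m - a m * b - 2 * T m / κ * (s - b) * b)| ≤ (ε₀ + ε / 12) * T m := by
    intro x hx1 hx2
    obtain ⟨J0, hJ0⟩ : ∃ J0 : ℕ, J0 = ⌊(s - x) * T m / κ⌋₊ := ⟨_, rfl⟩
    have hq0 : 0 ≤ (s - x) * T m / κ := div_nonneg (mul_nonneg (by linarith) hT0.le) hκ.le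
    have hJ1 : (J0 : ℝ) ≤ (s - x) * T m / κ := by
      rw [hJ0]
      exact Nat.floor_le hq0
    have hJ2 : (s - x) * T m / κ < J0 + 1 := by
      rw [hJ0]
      exact Nat.lt_floor_add_one _
    have hJ1' : κ * J0 / T m ≤ s - x := by
      rw [div_le_iff₀ hT0]
      rw [le_div_iff₀ hκ] at hJ1
      linarith
    have hJ2' : s - x ≤ κ * J0 / T m + κ / T m := by
      rw [← add_div, le_div_iff₀ hT0]
      rw [div_lt_iff₀ hκ] at hJ2
      linarith
    obtain ⟨j, hj1, hj2⟩ := hnode (T m) hTm F' c z (s - κ * J0 / T m)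
      (by
        rw [hF']
        exact f1.const_smul ((Real.exp (-C0 m) : ℝ) : ℂ))
      (fun w hw => by
        rw [hnF w]
        calc Real.exp (-C0 m) * ‖F m w‖ ≤ Real.exp (-C0 m) * Real.exp (C0 m + min δ (ε / 12) * T m) :=
              mul_le_mul_of_nonneg_left (f2 w (sphere_subset_closedBall hw)) (Real.exp_pos _).le
          _ = Real.exp (min δ (ε / 12) * T m) := by
              rw [← Real.exp_add]
              congr 1
              ring
          _ ≤ _ := Real.exp_le_exp.2 (mul_le_mul_of_nonneg_right (min_le_left _ _) hT0.le)) hz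
      (by
        rw [hnF z]
        calc Real.exp (-(δ * T m)) = Real.exp (-C0 m) * Real.exp (C0 m - δ * T m) := by
              rw [← Real.exp_add]
              congr 1
              ring
          _ ≤ _ := mul_le_mul_of_nonneg_left f3 (Real.exp_pos _).le)
      (fun y hy1 hy2 => hI y (by linarith) (by linarith))
    have hjb : (s - κ * J0 / T m) + j * (κ / T m) ≤ s := by linarith
    have hjJ : j ≤ J0 := by
      have h1 : (j : ℝ) * (κ / T m) ≤ J0 * (κ / T m) := by
        have : κ * (J0 : ℝ) / T m = J0 * (κ / T m) := by ring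
        linarith
      exact_mod_cast le_of_mul_le_mul_right h1 (by positivity)
    have hb' : (s - κ * J0 / T m) + j * (κ / T m) = s - κ * ((J0 - j : ℕ) : ℝ) / T m := by
      rw [Nat.cast_sub hjJ]
      ring
    obtain ⟨J, hJ⟩ : ∃ J : ℕ, J = J0 - j := ⟨_, rfl⟩
    rw [← hJ] at hb'
    rw [hb'] at hj2
    obtain ⟨b, hbdef⟩ : ∃ b : ℝ, b = s - κ * J / T m := ⟨_, rfl⟩
    have hbx : x ≤ b := by
      rw [hbdef, ← hb']
      have : 0 ≤ (j : ℝ) * (κ / T m) := by positivity
      linarith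
    have hbx2 : b ≤ x + η := by
      rw [hbdef, ← hb']
      linarith
    have h4 := f4 J (by rw [← hbdef]; linarith)
    rw [← hbdef] at h4 hj2
    have hFb := f2 (b : ℂ) (closedBall_subset_closedBall (by linarith) (hI b (by linarith) (by linarith)))
    rw [hnF] at hj2
    have hpos : 0 < ‖F m (b : ℂ)‖ := by
      by_contra hn
      have h5 : ‖F m (b : ℂ)‖ = 0 := le_antisymm (not_lt.1 hn) (norm_nonneg _)
      rw [h5, mul_zero] at hj2
      exact absurd hj2 (not_le.2 (Real.exp_pos _))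
    have hl1 : Real.log ‖F m (b : ℂ)‖ ≤ C0 m + ε / 12 * T m := by
      rw [Real.log_le_iff_le_exp hpos]
      refine hFb.trans (Real.exp_le_exp.2 ?_)
      have := mul_le_mul_of_nonneg_right (min_le_right δ (ε / 12)) hT0.le
      linarith
    have hl2 : C0 m - ε / 12 * T m ≤ Real.log ‖F m (b : ℂ)‖ := by
      rw [Real.le_log_iff_exp_le hpos]
      calc Real.exp (C0 m - ε / 12 * T m) = Real.exp (C0 m) * Real.exp (-(ε / 12 * T m)) := by
            rw [← Real.exp_add]
            congr 1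
        _ ≤ Real.exp (C0 m) * (Real.exp (-C0 m) * ‖F m (b : ℂ)‖) := mul_le_mul_of_nonneg_left hj2 (Real.exp_pos _).le
        _ = ‖F m (b : ℂ)‖ := by
            rw [← mul_assoc, ← Real.exp_add, add_neg_cancel, Real.exp_zero, one_mul]
    have hJb : (2 : ℝ) * J * b = 2 * T m / κ * (s - b) * b := by
      have h6 : (J : ℝ) = T m / κ * (s - b) := by
        rw [hbdef]
        field_simp
        ring
      rw [h6]
      ring
    refine ⟨b, ⟨hbx, hbx2⟩, ?_⟩
    rw [abs_le] at h4 ⊢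
    have e1 : (a m + 2 * J) * b = a m * b + 2 * T m / κ * (s - b) * b := by
      rw [add_mul, hJb]
    rw [e1] at h4
    constructor
    · linarith [h4.1, h4.2]
    · linarith [h4.1, h4.2]
  -- the conclusion
  have hc := conv_net (a := 2 * b₀ - s) (b := s) (η := 2 * η) (e := (ε₀ + ε / 12) * T m) (A := T m / (2 * κ))
    (B := -(a m) / 2) (C := C0 m - a m * s / 2 - T m / (2 * κ) * s ^ 2) f5 (by positivity) (by positivity)
    (fun x hx1 hx2 => by
      obtain ⟨b, hb1, hb2⟩ := hnet ((x + s) / 2) (by linarith) (by linarith)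
      refine ⟨2 * b - s, ⟨by linarith [hb1.1], by linarith [hb1.2]⟩, ?_⟩
      have e1 : T m / (2 * κ) * (2 * b - s) ^ 2 + -(a m) / 2 * (2 * b - s) +
          (C0 m - a m * s / 2 - T m / (2 * κ) * s ^ 2) = C0 m - a m * b - 2 * T m / κ * (s - b) * b := by
        field_simp
        ring
      rw [e1]
      exact hb2)
  intro β hβ
  have h1 := hc β ⟨by linarith [hβ.1], by linarith [hβ.2]⟩
  have e2 : T m / (2 * κ) * β ^ 2 + -(a m) / 2 * β + (C0 m - a m * s / 2 - T m / (2 * κ) * s ^ 2) =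
      C0 m - a m * (β + s) / 2 - T m / (2 * κ) * (s ^ 2 - β ^ 2) := by ring
  rw [e2] at h1
  refine h1.trans ?_
  have h7 : η ^ 2 ≤ κ * ε / 12 := by
    calc η ^ 2 = η * η := sq η
      _ ≤ 1 * (κ * ε / 12) := mul_le_mul hη2 hη3 hη0.le (by norm_num)
      _ = _ := one_mul _
  have h8 : 3 * (T m / (2 * κ)) * (2 * η) ^ 2 ≤ ε / 2 * T m := by
    calc 3 * (T m / (2 * κ)) * (2 * η) ^ 2 = 6 * (T m / κ) * η ^ 2 := by ring
      _ ≤ 6 * (T m / κ) * (κ * ε / 12) := mul_le_mul_of_nonneg_left h7 (by positivity)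
      _ = ε / 2 * T m := by
        field_simp
        norm_num
  have h9 : 0 ≤ ε * T m := by positivity
  linarith

end NUP2
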